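import Pool.Agent.W546.ST.Defs

/-!
# ST-LA: the pointwise inequality for a positive matrix with a distinguished index
-/
set_option autoImplicit false
open Matrix Finset

namespace Pool.Agent.W718.ST
open Pool.Agent.W546.ST

/-- arrow matrix -/
def arr {n : ℕ} (s : ℝ) (k g : Fin n → ℝ) : Matrix (Fin (n + 1)) (Fin (n + 1)) ℝ :=
  Matrix.of fun a b => (Fin.cons (Fin.cons s k : Fin (n + 1) → ℝ)
    (fun i => Fin.cons (k i) (fun j => if i = j then g i else 0)) : Fin (n + 1) → Fin (n + 1) → ℝ) a b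

theorem arr00 {n : ℕ} (s : ℝ) (k g : Fin n → ℝ) : arr s k g 0 0 = s := by simp [arr]
theorem arr0s {n : ℕ} (s : ℝ) (k g : Fin n → ℝ) (j : Fin n) : arr s k g 0 j.succ = k j := by simp [arr]
theorem arrs0 {n : ℕ} (s : ℝ) (k g : Fin n → ℝ) (i : Fin n) : arr s k g i.succ 0 = k i := by simp [arr]
theorem arrss {n : ℕ} (s : ℝ) (k g : Fin n → ℝ) (i j : Fin n) :
    arr s k g i.succ j.succ = if i = j then g i else 0 := by simp [arr]

theorem prod_erase_succ {n : ℕ} (g : Fin (n + 1) → ℝ) (i : Fin n) :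
    ∏ j ∈ univ.erase i.succ, g j = g 0 * ∏ j ∈ univ.erase i, g j.succ := by
  have h : (univ : Finset (Fin (n + 1))).erase i.succ
      = insert 0 (((univ : Finset (Fin n)).erase i).map (Fin.succEmb n)) := by
    ext x
    refine Fin.cases ?_ (fun y => ?_) x
    · simp [Fin.succ_ne_zero, eq_comm]
    · simp [Fin.succ_ne_zero]
  rw [h, prod_insert (by simp [Fin.succ_ne_zero]), prod_map]
  simp

theorem prod_erase_zero {n : ℕ} (g : Fin (n + 1) → ℝ) :
    ∏ j ∈ univ.erase (0 : Fin (n + 1)), g j = ∏ j : Fin n, g j.succ := by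
  have h : (univ : Finset (Fin (n + 1))).erase 0 = (univ : Finset (Fin n)).map (Fin.succEmb n) := by
    ext x
    refine Fin.cases ?_ (fun y => ?_) x
    · simp [Fin.succ_ne_zero]
    · simp [Fin.succ_ne_zero]
  rw [h, prod_map]
  simp

theorem arr_det : ∀ (n : ℕ) (s : ℝ) (k g : Fin n → ℝ),
    (arr s k g).det = s * ∏ i, g i - ∑ i, k i ^ 2 * ∏ j ∈ univ.erase i, g j := by
  intro n
  induction n with
  | zero => intro s k g; simp [arr]
  | succ n ih =>
    intro s k g
    have hB : ((arr s k g).submatrix (Fin.succAbove 1) (Fin.succAbove 0)).det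
        = k 0 * ∏ j, g (Fin.succ j) := by
      rw [Matrix.det_of_isUpperTriangular, Fin.prod_univ_succ]
      · congr 1
        · refine prod_congr rfl fun j _ => ?_
          rw [Matrix.submatrix_apply, Fin.zero_succAbove]
          have : (Fin.succAbove 1 j.succ : Fin (n + 2)) = j.succ.succ := by
            rw [← Fin.succ_zero_eq_one, Fin.succ_succAbove_succ, Fin.zero_succAbove]
          rw [this, arrss]; simp
      · intro i j hij
        simp only [id] at hij
        rw [Matrix.submatrix_apply, Fin.zero_succAbove]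
        induction i using Fin.cases with
        | zero => exact absurd hij (by simp)
        | succ i =>
          have : (Fin.succAbove 1 i.succ : Fin (n + 2)) = i.succ.succ := by
            rw [← Fin.succ_zero_eq_one, Fin.succ_succAbove_succ, Fin.zero_succAbove]
          rw [this, arrss, if_neg]
          exact fun h => absurd (h ▸ hij) (lt_irrefl _)
    have hC : (arr s k g).submatrix (Fin.succAbove 1) (Fin.succAbove 1)
        = arr s (fun j => k j.succ) (fun j => g j.succ) := by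
      ext i j
      rw [Matrix.submatrix_apply]
      have h0 : (Fin.succAbove 1 0 : Fin (n + 2)) = 0 := by
        rw [← Fin.succ_zero_eq_one, Fin.succ_succAbove_zero]
      have hs : ∀ i : Fin n, (Fin.succAbove 1 i.succ : Fin (n + 2)) = i.succ.succ := fun i => by
        rw [← Fin.succ_zero_eq_one, Fin.succ_succAbove_succ, Fin.zero_succAbove]
      induction i using Fin.cases with
      | zero =>
        induction j using Fin.cases with
        | zero => rw [h0, arr00, arr00]
        | succ j => rw [h0, hs, arr0s, arr0s]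
      | succ i =>
        induction j using Fin.cases with
        | zero => rw [h0, hs, arrs0, arrs0]
        | succ j => rw [hs, hs, arrss, arrss]; simp
    rw [Matrix.det_succ_row _ 1, Fin.sum_univ_succ, Fin.sum_univ_succ, hB]
    have h1 : (Fin.succ 0 : Fin (n + 2)) = 1 := rfl
    rw [h1, hC, ih]
    have h3 : ∀ i : Fin n, arr s k g 1 i.succ.succ = 0 := fun i => by
      rw [← h1, arrss, if_neg (Fin.succ_ne_zero i).symm]
    have h4 : arr s k g 1 0 = k 0 := by rw [← h1, arrs0]
    have h5 : arr s k g 1 1 = g 0 := by rw [← h1, arrss, if_pos rfl]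
    simp only [h3, h4, h5]
    rw [Fin.sum_univ_succ (fun i => k i ^ 2 * ∏ j ∈ univ.erase i, g j), prod_erase_zero, Fin.prod_univ_succ]
    simp only [prod_erase_succ]
    have h6 : ∑ i : Fin n, k i.succ ^ 2 * (g 0 * ∏ j ∈ univ.erase i, g j.succ)
        = g 0 * ∑ i : Fin n, k i.succ ^ 2 * ∏ j ∈ univ.erase i, g j.succ := by
      rw [mul_sum]; exact sum_congr rfl fun i _ => by ring
    rw [h6]
    simp
    ring

theorem arr_adj (n : ℕ) (s : ℝ) (k g : Fin (n + 1) → ℝ) :
    (arr s k g).adjugate.trace = ∏ i, g i + ∑ i : Fin (n + 1),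
      (s * ∏ j : Fin n, g (i.succAbove j)
        - ∑ j : Fin n, k (i.succAbove j) ^ 2 * ∏ m ∈ univ.erase j, g (i.succAbove m)) := by
  have h0 : (arr s k g).submatrix (Fin.succAbove 0) (Fin.succAbove 0) = Matrix.diagonal g := by
    ext i j
    rw [Matrix.submatrix_apply, Fin.zero_succAbove, Fin.zero_succAbove, arrss, Matrix.diagonal_apply]
  have h1 : ∀ i : Fin (n + 1), (arr s k g).submatrix (Fin.succAbove i.succ) (Fin.succAbove i.succ)
      = arr s (fun j => k (i.succAbove j)) (fun j => g (i.succAbove j)) := by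
    intro i
    ext a b
    rw [Matrix.submatrix_apply]
    induction a using Fin.cases with
    | zero =>
      induction b using Fin.cases with
      | zero => rw [Fin.succ_succAbove_zero, arr00, arr00]
      | succ b => rw [Fin.succ_succAbove_zero, Fin.succ_succAbove_succ, arr0s, arr0s]
    | succ a =>
      induction b using Fin.cases with
      | zero => rw [Fin.succ_succAbove_zero, Fin.succ_succAbove_succ, arrs0, arrs0]
      | succ b =>
        rw [Fin.succ_succAbove_succ, Fin.succ_succAbove_succ, arrss, arrss]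
        simp
  have h2 : ∀ i : Fin (n + 2), (arr s k g).adjugate i i
      = ((arr s k g).submatrix (Fin.succAbove i) (Fin.succAbove i)).det := by
    intro i
    rw [Matrix.adjugate_fin_succ_eq_det_submatrix, ← two_mul, pow_mul]
    simp
  rw [Matrix.trace, Fin.sum_univ_succ]
  simp only [Matrix.diag_apply, h2]
  rw [h0, Matrix.det_diagonal]
  congr 1
  refine sum_congr rfl fun i _ => ?_
  rw [h1, arr_det]

theorem prod_erase_succAbove {n : ℕ} (g : Fin (n + 1) → ℝ) (i : Fin (n + 1)) :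
    ∏ j ∈ univ.erase i, g j = ∏ j : Fin n, g (i.succAbove j) := by
  have h : (univ : Finset (Fin (n + 1))).erase i
      = (univ : Finset (Fin n)).map (Fin.succAboveEmb i) := by
    ext x
    simp only [mem_erase, mem_univ, and_true, mem_map, true_and, Fin.coe_succAboveEmb]
    constructor
    · intro hx; exact Fin.exists_succAbove_eq hx
    · rintro ⟨y, rfl⟩; exact Fin.succAbove_ne i y
  rw [h, prod_map]
  simp

theorem prod_erase_two {n : ℕ} (g : Fin (n + 1) → ℝ) (i : Fin (n + 1)) (l : Fin n) :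
    ∏ j ∈ univ.erase (i.succAbove l), g j = g i * ∏ m ∈ univ.erase l, g (i.succAbove m) := by
  have h : (univ : Finset (Fin (n + 1))).erase (i.succAbove l)
      = insert i (((univ : Finset (Fin n)).erase l).map (Fin.succAboveEmb i)) := by
    ext x
    simp only [mem_erase, mem_univ, and_true, mem_insert, mem_map, Fin.coe_succAboveEmb]
    constructor
    · intro hx
      by_cases h : x = i
      · exact Or.inl h
      · obtain ⟨y, rfl⟩ := Fin.exists_succAbove_eq h
        exact Or.inr ⟨y, fun h => hx (by rw [h]), rfl⟩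
    · rintro (rfl | ⟨y, hy, rfl⟩)
      · exact (Fin.succAbove_ne x l).symm
      · exact fun h => hy (Fin.succAbove_right_injective h)
  rw [h, prod_insert, prod_map]
  · simp
  · simp only [mem_map, mem_erase, mem_univ, and_true, Fin.coe_succAboveEmb, not_exists, not_and]
    intro y _ h
    exact Fin.succAbove_ne i y h

/-- the diagonal case -/
theorem diag_case (hSM : St_SM) (n : ℕ) (hn : 3 ≤ n) (s : ℝ) (k g : Fin n → ℝ) (hs : 0 ≤ s)
    (hg0 : ∀ i, 0 ≤ g i) (hg1 : ∀ i, g i ≤ 1) (s2 ga y : ℝ) (h0 : 0 ≤ s2) (h1 : s2 ≤ 1)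
    (hs2 : s ≤ 1 - s2) (hga : ga ≤ 3 * ((n : ℝ) + 2)) (hy : ∑ i, g i = n * y) :
    (2 * (n : ℝ) + 3) * (arr s k g).adjugate.trace - ga * (arr s k g).det
      + (2 * ((n : ℝ) + 1) ^ 2 - 4 * ((n : ℝ) + 1) - 1) * s2 * ∏ i, g i
    ≤ (2 * (n : ℝ) + 3) * n * s * y ^ (n - 1) - ga * s * y ^ n
      + ((2 * (n : ℝ) + 3) * (1 - s2) + 2 * ((n : ℝ) + 1) * n * s2) * y ^ n := by
  obtain ⟨p, rfl⟩ : ∃ p, n = p + 1 := ⟨n - 1, by omega⟩
  have hp : (2 : ℝ) ≤ p := by exact_mod_cast (by omega : 2 ≤ p)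
  rw [arr_adj, arr_det]
  set Pr : Fin (p + 1) → ℝ := fun i => ∏ j ∈ univ.erase i, g j with hPr
  have hPr0 : ∀ i, 0 ≤ Pr i := fun i => prod_nonneg fun j _ => hg0 j
  have e1 : ∀ i : Fin (p + 1), ∏ j : Fin p, g (i.succAbove j) = Pr i := fun i =>
    (prod_erase_succAbove g i).symm
  set K : ℝ := ∑ i, k i ^ 2 * Pr i with hK
  have hK0 : 0 ≤ K := sum_nonneg fun i _ => mul_nonneg (sq_nonneg _) (hPr0 i)
  have e2 : ∀ i : Fin (p + 1), ∑ j : Fin p, k (i.succAbove j) ^ 2 * Pr (i.succAbove j)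
      ≤ ∑ j : Fin p, k (i.succAbove j) ^ 2 * ∏ m ∈ univ.erase j, g (i.succAbove m) := by
    intro i
    refine sum_le_sum fun j _ => mul_le_mul_of_nonneg_left ?_ (sq_nonneg _)
    rw [hPr]
    simp only
    rw [prod_erase_two]
    exact mul_le_of_le_one_left (prod_nonneg fun m _ => hg0 _) (hg1 i)
  have e3 : ∑ i : Fin (p + 1), ∑ j : Fin p, k (i.succAbove j) ^ 2 * Pr (i.succAbove j) = p * K := by
    have : ∀ i : Fin (p + 1), ∑ j : Fin p, k (i.succAbove j) ^ 2 * Pr (i.succAbove j)
        = K - k i ^ 2 * Pr i := by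
      intro i
      rw [hK, Fin.sum_univ_succAbove (fun l => k l ^ 2 * Pr l) i]
      ring
    simp only [this]
    rw [sum_sub_distrib, sum_const, card_univ, Fintype.card_fin, ← hK, nsmul_eq_mul]
    push_cast
    ring
  have e4 : (p : ℝ) * K ≤ ∑ i : Fin (p + 1), ∑ j : Fin p,
      k (i.succAbove j) ^ 2 * ∏ m ∈ univ.erase j, g (i.succAbove m) := by
    rw [← e3]; exact sum_le_sum fun i _ => e2 i
  have hsm := hSM (p + 1) (by omega) g hg0 hg1 ((2 * ((p + 1 : ℕ) : ℝ) + 3) * s)
    ((2 * ((p + 1 : ℕ) : ℝ) + 3) * (1 - s2) + 2 * (((p + 1 : ℕ) : ℝ) + 1) * ((p + 1 : ℕ) : ℝ) * s2 - ga * s) y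
    (by positivity) (by
      push_cast
      by_cases hg : ga ≤ 0
      · have := mul_nonneg (neg_nonneg.2 hg) hs
        have h5 : 0 ≤ (2 * ((p : ℝ) + 1) + 3) * s * (p + 1 - 2) := by
          apply mul_nonneg (by positivity); linarith
        have h6 : 0 ≤ (2 * ((p : ℝ) + 1) + 3) * (1 - s2) := mul_nonneg (by positivity) (by linarith)
        have h7 : 0 ≤ 2 * ((p : ℝ) + 1 + 1) * ((p : ℝ) + 1) * s2 := by positivity
        linarith
      · have h4 : ga * s ≤ 3 * (((p + 1 : ℕ) : ℝ) + 2) * s := mul_le_mul_of_nonneg_right hga hs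
        push_cast at h4
        have h7 : 0 ≤ 2 * ((p : ℝ) + 1 + 1) * ((p : ℝ) + 1) * s2 := by positivity
        have h6 : (2 * ((p : ℝ) + 1) + 3) * s ≤ (2 * ((p : ℝ) + 1) + 3) * (1 - s2) :=
          mul_le_mul_of_nonneg_left hs2 (by positivity)
        have h8 : 3 * ((p : ℝ) + 1 + 2) * s ≤ (2 * ((p : ℝ) + 1) + 3) * p * s := by
          apply mul_le_mul_of_nonneg_right _ hs
          nlinarith
        nlinarith) hy
  have e5 : ∑ i : Fin (p + 1), (s * ∏ j : Fin p, g (i.succAbove j)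
        - ∑ j : Fin p, k (i.succAbove j) ^ 2 * ∏ m ∈ univ.erase j, g (i.succAbove m))
      = s * ∑ i, Pr i - ∑ i : Fin (p + 1), ∑ j : Fin p,
      k (i.succAbove j) ^ 2 * ∏ m ∈ univ.erase j, g (i.succAbove m) := by
    rw [sum_sub_distrib, mul_sum]
    simp only [e1]
  rw [e5]
  set Q := ∑ i : Fin (p + 1), ∑ j : Fin p,
      k (i.succAbove j) ^ 2 * ∏ m ∈ univ.erase j, g (i.succAbove m) with hQ
  have hsm' : (2 * ((p + 1 : ℕ) : ℝ) + 3) * s * (∑ i, Pr i)
    + ((2 * ((p + 1 : ℕ) : ℝ) + 3) * (1 - s2) + 2 * (((p + 1 : ℕ) : ℝ) + 1) * ((p + 1 : ℕ) : ℝ) * s2 - ga * s) * ∏ i, g i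
    ≤ (2 * ((p + 1 : ℕ) : ℝ) + 3) * s * ((p + 1 : ℕ) : ℝ) * y ^ (p + 1 - 1)
      + ((2 * ((p + 1 : ℕ) : ℝ) + 3) * (1 - s2) + 2 * (((p + 1 : ℕ) : ℝ) + 1) * ((p + 1 : ℕ) : ℝ) * s2 - ga * s) * y ^ (p + 1) := hsm
  have e6 : ga * K ≤ (2 * ((p + 1 : ℕ) : ℝ) + 3) * Q := by
    have h8 : ga * K ≤ 3 * (((p + 1 : ℕ) : ℝ) + 2) * K := mul_le_mul_of_nonneg_right hga hK0
    have h9 : 3 * (((p + 1 : ℕ) : ℝ) + 2) * K ≤ (2 * ((p + 1 : ℕ) : ℝ) + 3) * (p * K) := by
      rw [← mul_assoc]
      apply mul_le_mul_of_nonneg_right _ hK0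
      push_cast
      nlinarith
    have h10 : (2 * ((p + 1 : ℕ) : ℝ) + 3) * (p * K) ≤ (2 * ((p + 1 : ℕ) : ℝ) + 3) * Q :=
      mul_le_mul_of_nonneg_left e4 (by positivity)
    linarith
  generalize ((p + 1 : ℕ) : ℝ) = N at *
  linarith [hsm', e6]

/-- block diagonal `1 ⊕ U` -/
def vm {n : ℕ} (U : Matrix (Fin n) (Fin n) ℝ) : Matrix (Fin (n + 1)) (Fin (n + 1)) ℝ :=
  Matrix.of fun a b => (Fin.cons (Fin.cons 1 (fun _ => 0) : Fin (n + 1) → ℝ)
    (fun i => Fin.cons 0 (fun j => U i j)) : Fin (n + 1) → Fin (n + 1) → ℝ) a b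

theorem vm00 {n : ℕ} (U : Matrix (Fin n) (Fin n) ℝ) : vm U 0 0 = 1 := by simp [vm]
theorem vm0s {n : ℕ} (U : Matrix (Fin n) (Fin n) ℝ) (j : Fin n) : vm U 0 j.succ = 0 := by simp [vm]
theorem vms0 {n : ℕ} (U : Matrix (Fin n) (Fin n) ℝ) (i : Fin n) : vm U i.succ 0 = 0 := by simp [vm]
theorem vmss {n : ℕ} (U : Matrix (Fin n) (Fin n) ℝ) (i j : Fin n) : vm U i.succ j.succ = U i j := by
  simp [vm]

theorem vm_mul {n : ℕ} (U : Matrix (Fin n) (Fin n) ℝ) (hU : U * Uᵀ = 1) : vm U * (vm U)ᵀ = 1 := by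
  ext a b
  rw [Matrix.mul_apply, Fin.sum_univ_succ]
  simp only [Matrix.transpose_apply]
  induction a using Fin.cases with
  | zero =>
    induction b using Fin.cases with
    | zero => simp [vm00, vm0s]
    | succ b =>
      rw [Matrix.one_apply_ne (Fin.succ_ne_zero b).symm]
      simp [vms0, vm0s]
  | succ a =>
    induction b using Fin.cases with
    | zero =>
      rw [Matrix.one_apply_ne (Fin.succ_ne_zero a)]
      simp [vms0, vm0s]
    | succ b =>
      have := congrFun (congrFun hU a) b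
      rw [Matrix.mul_apply] at this
      simp only [Matrix.transpose_apply] at this
      simp only [vms0, vmss, zero_mul, zero_add]
      rw [this, Matrix.one_apply, Matrix.one_apply]
      simp

theorem vm_conj {n : ℕ} (U : Matrix (Fin n) (Fin n) ℝ) (H : Matrix (Fin (n + 1)) (Fin (n + 1)) ℝ)
    (hH : Hᵀ = H) (g : Fin n → ℝ) (hg : Uᵀ * H.submatrix Fin.succ Fin.succ * U = Matrix.diagonal g) :
    (vm U)ᵀ * H * vm U = arr (H 0 0) (fun j => ∑ d : Fin n, H 0 d.succ * U d j) g := by
  have hsym : ∀ a b, H a b = H b a := fun a b => by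
    conv_lhs => rw [← hH]
    rfl
  have key : ∀ a b, ((vm U)ᵀ * H * vm U) a b
      = ∑ d, (∑ c, vm U c a * H c d) * vm U d b := by
    intro a b
    rw [Matrix.mul_apply]
    refine sum_congr rfl fun d _ => ?_
    rw [Matrix.mul_apply]
    rfl
  ext a b
  rw [key]
  simp only [Fin.sum_univ_succ]
  induction a using Fin.cases with
  | zero =>
    induction b using Fin.cases with
    | zero => simp [vm00, vms0, arr00]
    | succ b => simp [vm00, vm0s, vms0, vmss, arr0s]
  | succ a =>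
    induction b using Fin.cases with
    | zero =>
      simp only [vm00, vm0s, vms0, vmss, arrs0]
      simp [hsym _ 0, mul_comm]
    | succ b =>
      have := congrFun (congrFun hg a) b
      simp only [Matrix.mul_apply, Matrix.transpose_apply, Matrix.submatrix_apply] at this
      simp only [vm0s, vmss, arrss, mul_zero, zero_mul, zero_add]
      rw [this, Matrix.diagonal_apply]

theorem diag_exists {n : ℕ} (G : Matrix (Fin n) (Fin n) ℝ) (hG : G.PosSemidef)
    (hG1 : (1 - G).PosSemidef) : ∃ (U : Matrix (Fin n) (Fin n) ℝ) (g : Fin n → ℝ),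
      U * Uᵀ = 1 ∧ Uᵀ * U = 1 ∧ Uᵀ * G * U = Matrix.diagonal g ∧ (∀ i, 0 ≤ g i) ∧ (∀ i, g i ≤ 1) := by
  have hh := hG.isHermitian
  have hc := hh.conjStarAlgAut_star_eigenvectorUnitary
  rw [Unitary.conjStarAlgAut_star_apply] at hc
  have h1 : (hh.eigenvectorUnitary : Matrix (Fin n) (Fin n) ℝ)
      * (hh.eigenvectorUnitary : Matrix (Fin n) (Fin n) ℝ)ᵀ = 1 := by
    have := Unitary.coe_mul_star_self hh.eigenvectorUnitary
    simpa [Matrix.star_eq_conjTranspose, Matrix.conjTranspose_eq_transpose_of_trivial] using this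
  have h2 : (hh.eigenvectorUnitary : Matrix (Fin n) (Fin n) ℝ)ᵀ
      * (hh.eigenvectorUnitary : Matrix (Fin n) (Fin n) ℝ) = 1 := by
    have := Unitary.coe_star_mul_self hh.eigenvectorUnitary
    simpa [Matrix.star_eq_conjTranspose, Matrix.conjTranspose_eq_transpose_of_trivial] using this
  have h3 : (hh.eigenvectorUnitary : Matrix (Fin n) (Fin n) ℝ)ᵀ * G
      * (hh.eigenvectorUnitary : Matrix (Fin n) (Fin n) ℝ) = Matrix.diagonal hh.eigenvalues := by
    have e : (RCLike.ofReal ∘ hh.eigenvalues : Fin n → ℝ) = hh.eigenvalues := by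
      ext i; simp
    rw [e] at hc
    simpa [Matrix.star_eq_conjTranspose, Matrix.conjTranspose_eq_transpose_of_trivial] using hc
  refine ⟨_, _, h1, h2, h3, fun i => hG.eigenvalues_nonneg i, fun i => ?_⟩
  set U : Matrix (Fin n) (Fin n) ℝ := (hh.eigenvectorUnitary : Matrix (Fin n) (Fin n) ℝ)
  have h4 : (Uᵀ * (1 - G) * U).PosSemidef := by
    have := hG1.conjTranspose_mul_mul_same U
    rwa [Matrix.conjTranspose_eq_transpose_of_trivial] at this
  have h5 := h4.diag_nonneg (i := i)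
  rw [Matrix.mul_sub, Matrix.sub_mul, Matrix.mul_one, h2, h3, Matrix.sub_apply,
    Matrix.one_apply_eq, Matrix.diagonal_apply_eq] at h5
  linarith

theorem LA (h : St_SM) : St_LA := by
  intro n hn H hH hH1 s2 g y hs0 hs1 hsig hg hy
  have hG : (H.submatrix Fin.succ Fin.succ).PosSemidef := hH.submatrix _
  have hG1 : (1 - H.submatrix Fin.succ Fin.succ).PosSemidef := by
    have := hH1.submatrix (Fin.succ : Fin n → Fin (n + 1))
    have e : (1 - H).submatrix (Fin.succ : Fin n → Fin (n + 1)) Fin.succ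
        = 1 - H.submatrix Fin.succ Fin.succ := by
      ext i j
      simp [Matrix.submatrix_apply, Matrix.sub_apply, Matrix.one_apply]
    rwa [e] at this
  obtain ⟨U, e, hU1, hU2, hU3, he0, he1⟩ := diag_exists _ hG hG1
  have hHs : Hᵀ = H := by
    have := hH.isHermitian
    rwa [Matrix.IsHermitian, Matrix.conjTranspose_eq_transpose_of_trivial] at this
  have hconj := vm_conj U H hHs e hU3
  have hV := vm_mul U hU1
  have hdetV : (vm U)ᵀ.det * (vm U).det = 1 := by
    rw [mul_comm, ← Matrix.det_mul, hV, Matrix.det_one]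
  have hdet : (arr (H 0 0) (fun j => ∑ d : Fin n, H 0 d.succ * U d j) e).det = H.det := by
    rw [← hconj, Matrix.det_mul, Matrix.det_mul]
    calc (vm U)ᵀ.det * H.det * (vm U).det = ((vm U)ᵀ.det * (vm U).det) * H.det := by ring
      _ = H.det := by rw [hdetV, one_mul]
  have hadj : (arr (H 0 0) (fun j => ∑ d : Fin n, H 0 d.succ * U d j) e).adjugate.trace
      = H.adjugate.trace := by
    rw [← hconj, Matrix.adjugate_mul_distrib, Matrix.adjugate_mul_distrib, Matrix.trace_mul_comm,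
      Matrix.mul_assoc, ← Matrix.adjugate_mul_distrib, hV, Matrix.adjugate_one, Matrix.mul_one]
  have hdetG : (H.submatrix Fin.succ Fin.succ).det = ∏ i, e i := by
    rw [← Matrix.det_diagonal, ← hU3, Matrix.det_mul, Matrix.det_mul]
    have : Uᵀ.det * U.det = 1 := by rw [← Matrix.det_mul, hU2, Matrix.det_one]
    calc (H.submatrix Fin.succ Fin.succ).det
        = (Uᵀ.det * U.det) * (H.submatrix Fin.succ Fin.succ).det := by rw [this, one_mul]
      _ = _ := by ring
  have htr : ∑ i, e i = n * y := by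
    rw [← hy, ← Matrix.trace_diagonal, ← hU3, Matrix.trace_mul_comm, ← Matrix.mul_assoc, hU1,
      Matrix.one_mul]
  have h00 : 0 ≤ H 0 0 := hH.diag_nonneg
  have := diag_case h n hn (H 0 0) (fun j => ∑ d : Fin n, H 0 d.succ * U d j) e h00 he0 he1 s2 g y
    hs0 hs1 hsig hg htr
  rw [hdet, hadj, ← hdetG] at this
  exact this

end Pool.Agent.W718.ST
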